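import Pool.Agent.P.MP_9167e9_an.StG

/-! BR: moves in the model lift to the graph product; shortest words are minimal lifts. -/

noncomputable section
open scoped Classical

namespace Pool.Agent.P.MP_9167e9_an

namespace Br

section Gen

variable {X J : Type} [Group X] (w : PreWS X J)

lemma W_comm (x y : X) : w.W x y = w.W y x := by
  ext a; simp only [w.mem_W]; exact ne_comm

lemma W_self (x : X) : w.W x x = ∅ := by
  ext a; simp [w.mem_W]

lemma W_or (x y z : X) (a : J) (ha : a ∈ w.W x z) : a ∈ w.W x y ∨ a ∈ w.W y z := by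
  simp only [w.mem_W] at ha ⊢
  by_cases h : w.sec a x = w.sec a y
  · exact Or.inr (h ▸ ha)
  · exact Or.inl h

lemma gate_self (T : Set X) (c : X) (hc : c ∈ T) : w.Gate T c c :=
  ⟨hc, fun c' _ => by simp [PreWS.d, W_self]⟩

end Gen

section GPL

variable {L : Type} {adj : L → L → Prop} {H : Type} [AddCommGroup H]
  {w : PreWS (GP adj H) (Wall adj H)}

lemma lmp_zero (g : GPOut adj w) (f : L) : lmp adj f (0 : H) = 1 := by
  have h := g.lmp_add f (0 : H) 0
  rw [add_zero] at h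
  exact mul_eq_left.1 h.symm

lemma lmp_neg (g : GPOut adj w) (f : L) (a : H) : lmp adj f (-a) = (lmp adj f a)⁻¹ := by
  rw [eq_inv_iff_mul_eq_one, ← g.lmp_add, neg_add_cancel, lmp_zero g]

lemma W_lmp_sub (g : GPOut adj w) (f : L) (a : H) (x : GP adj H) :
    w.W x (lmp adj f a * x) ⊆ {wall adj f x} := by
  by_cases h : a = 0
  · subst h; rw [lmp_zero g, one_mul, W_self]; exact Finset.empty_subset _
  · rw [g.W_lmp f a x h]

lemma d_lmp (g : GPOut adj w) (f : L) (a : H) (x : GP adj H) :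
    w.d x (lmp adj f a * x) ≤ 1 := by
  simpa [PreWS.d] using Finset.card_le_card (W_lmp_sub g f a x)

lemma ex_wall (a : Wall adj H) : ∃ x, a = wall adj a.1 x := by
  obtain ⟨f, q⟩ := a
  obtain ⟨x, rfl⟩ := Quotient.exists_rep q
  exact ⟨x, rfl⟩

lemma aw_fst (g : GPOut adj w) (a : Wall adj H) (k : GP adj H) : (w.aw a k).1 = a.1 := by
  obtain ⟨x, hx⟩ := ex_wall a
  rw [hx, g.aw_eq]; rfl

lemma wall_of_car (g : GPOut adj w) (a : Wall adj H) (b : GP adj H) (hb : b ∈ w.car a) :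
    a = wall adj a.1 b := by
  obtain ⟨f, q⟩ := a
  obtain ⟨x, rfl⟩ := Quotient.exists_rep q
  have h : b ∈ w.car (wall adj f x) := hb
  rw [g.car_eq] at h
  have : Quotient.mk (QuotientGroup.rightRel (Par adj H (star adj f))) x = Quotient.mk _ b :=
    Quotient.sound (QuotientGroup.rightRel_apply.2 h)
  change (⟨f, _⟩ : Wall adj H) = ⟨f, _⟩
  rw [this]

lemma d_prod (g : GPOut adj w) (p : PreOut w) (l : List (L × H)) (y : GP adj H) :
    w.d y ((l.map fun e => lmp adj e.1 e.2).prod * y) ≤ l.length := by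
  induction l with
  | nil => simp [PreWS.d, W_self]
  | cons e l ih =>
    have h1 := p.d_tri y ((l.map fun e => lmp adj e.1 e.2).prod * y)
      (lmp adj e.1 e.2 * ((l.map fun e => lmp adj e.1 e.2).prod * y))
    have h2 := d_lmp g e.1 e.2 ((l.map fun e => lmp adj e.1 e.2).prod * y)
    simp only [List.map_cons, List.prod_cons, List.length_cons, mul_assoc]
    omega

lemma spell (g : GPOut adj w) (p : PreOut w) (y : GP adj H) : ∀ (n : ℕ) (x : GP adj H),
    w.d x y = n → ∃ l : List (L × H), x = (l.map fun e => lmp adj e.1 e.2).prod * y ∧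
      l.length = n ∧ ∀ e ∈ l, ∃ a ∈ w.W x y, a.1 = e.1 := by
  intro n
  induction n with
  | zero =>
    intro x h
    exact ⟨[], by simpa using (p.d_zero x y).1 h, rfl, by simp⟩
  | succ n ih =>
    intro x h
    have hne : x ≠ y := fun e => by
      rw [(p.d_zero x y).2 e] at h; omega
    obtain ⟨f, a, ha, h1, h2⟩ := g.step' x y hne
    have hW := g.W_lmp f a x ha
    have hE : w.W (lmp adj f a * x) y = (w.W x y).erase (wall adj f x) := by
      ext b
      by_cases hb : b = wall adj f x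
      · subst hb; simp [h2]
      · have : b ∉ w.W x (lmp adj f a * x) := by rw [hW]; simpa using hb
        rw [w.mem_W, not_not] at this
        simp only [Finset.mem_erase, w.mem_W, this, ne_eq, hb, not_false_eq_true, true_and]
    have hd : w.d (lmp adj f a * x) y = n := by
      unfold PreWS.d at h ⊢
      rw [hE, Finset.card_erase_of_mem h1, h]; rfl
    obtain ⟨l, e1, e2, e3⟩ := ih _ hd
    refine ⟨(f, -a) :: l, ?_, by simp [e2], ?_⟩
    · simp only [List.map_cons, List.prod_cons, mul_assoc]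
      rw [← e1, lmp_neg g, inv_mul_cancel_left]
    · intro e he
      rcases List.mem_cons.1 he with rfl | he
      · exact ⟨_, h1, rfl⟩
      · obtain ⟨b, hb, hb'⟩ := e3 e he
        rw [hE] at hb
        exact ⟨b, Finset.mem_of_mem_erase hb, hb'⟩

end GPL

variable {P : Prm} {F : Set (Cell P)} {c : Cell P}

lemma cls_eq (x y : PP F) : cls F c x = cls F c y ↔
    ∃ k ∈ KP F, ∃ b ∈ Par (adj F) (ZMod P.h) (EP F c 1), y = x * k * b := by
  unfold cls
  rw [QuotientGroup.eq]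
  constructor
  · rintro ⟨b, hb, e⟩
    refine ⟨x⁻¹ * y * b⁻¹, ?_, b, hb, by group⟩
    have : mkN F (x⁻¹ * y * b⁻¹) = 1 := by
      rw [map_mul, map_mul, map_inv, map_inv, e, mul_inv_cancel]
    exact (QuotientGroup.eq_one_iff _).1 this
  · rintro ⟨k, hk, b, hb, rfl⟩
    refine ⟨b, hb, ?_⟩
    have : mkN F k = 1 := (QuotientGroup.eq_one_iff _).2 hk
    rw [map_mul, map_mul, this]; group

lemma cls_K (x k : PP F) (hk : k ∈ KP F) : cls F c x = cls F c (x * k) :=
  (cls_eq _ _).2 ⟨k, hk, 1, one_mem _, by simp⟩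

lemma cls_B (x b : PP F) (hb : b ∈ Par (adj F) (ZMod P.h) (EP F c 1)) :
    cls F c x = cls F c (x * b) :=
  (cls_eq _ _).2 ⟨1, one_mem _, b, hb, by simp⟩

lemma smul_cls (a x : PP F) : mkN F a • cls F c x = cls F c (a * x) := by
  unfold cls
  rw [map_mul]; rfl

lemma am_inl (s : P.S) (z : Zm F c) :
    am F c (FreeGroup.of (Sum.inl s)) z = (mkG F (FreeGroup.of s) * z.1, z.2) := by
  simp only [am, FreeGroup.lift_apply_of, Sum.elim_inl]; rfl

lemma am_inr (s : P.S) (z : Zm F c) :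
    am F c (FreeGroup.of (Sum.inr s)) z = (z.1, lampN F (z.1, s) 1 • z.2) := by
  simp only [am, FreeGroup.lift_apply_of, Sum.elim_inr]; rfl

lemma am_inl' (s : P.S) (z : Zm F c) :
    am F c (FreeGroup.of (Sum.inl s))⁻¹ z = (mkG F (FreeGroup.of s)⁻¹ * z.1, z.2) := by
  rw [map_inv, Equiv.Perm.inv_eq_iff_eq, am_inl]; simp

lemma am_inr' (s : P.S) (z : Zm F c) :
    am F c (FreeGroup.of (Sum.inr s))⁻¹ z = (z.1, (lampN F (z.1, s) 1)⁻¹ • z.2) := by
  rw [map_inv, Equiv.Perm.inv_eq_iff_eq, am_inr]; simp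

lemma nr_of {A : Type} (s : A) : nr (FreeGroup.of s) = 1 := by
  unfold nr; simp

lemma nr_of' {A : Type} (s : A) : nr (FreeGroup.of s)⁻¹ = 1 := by
  unfold nr; simp

lemma ex_list {A : Type} (f : FreeGroup A) : ∃ u, FreeGroup.mk u = f ∧ u.length = nr f :=
  ⟨@FreeGroup.toWord A (Classical.decEq A) f, @FreeGroup.mk_toWord A (Classical.decEq A) f, rfl⟩

variable {w : WS (PP F) (Wall (adj F) (ZMod P.h)) (PC F)}

lemma move_list (G1 : Gam1 F) (I : PInst w) (γ : Gam F) (x : PP F)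
    (u : List ((P.S ⊕ P.S) × Bool)) :
    dG F γ (am F c (FreeGroup.mk u) (γ, cls F c x)).1 ≤ u.length ∧
    ∃ y, (am F c (FreeGroup.mk u) (γ, cls F c x)).2 = cls F c y ∧ w.d x y ≤ u.length ∧
      ∀ a ∈ w.W x y, dG F γ a.1.1 ≤ u.length := by
  induction u with
  | nil =>
    have h0 := G1.dG_le γ 1
    have h1 : (FreeGroup.mk ([] : List ((P.S ⊕ P.S) × Bool))) = 1 := rfl
    rw [h1, map_one]
    refine ⟨?_, x, rfl, by simp [PreWS.d, W_self], by simp [W_self]⟩
    simpa [nr] using h0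
  | cons l u ih =>
    obtain ⟨h1, y, h2, h3, h4⟩ := ih
    set z := am F c (FreeGroup.mk u) (γ, cls F c x) with hz
    have mv : ∀ a : FreeGroup P.S, nr a = 1 → dG F γ (mkG F a * z.1) ≤ u.length + 1 := by
      intro a ha
      have := G1.dG_tri γ z.1 (mkG F a * z.1)
      have := G1.dG_le z.1 a
      omega
    have keep : ∃ y, z.2 = cls F c y ∧ w.d x y ≤ u.length + 1 ∧
        ∀ a ∈ w.W x y, dG F γ a.1.1 ≤ u.length + 1 :=
      ⟨y, h2, by omega, fun a ha => (h4 a ha).trans (Nat.le_succ _)⟩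
    have lp : ∀ (s : P.S) (t : ZMod P.h), ∃ y', lampN F (z.1, s) t • z.2 = cls F c y' ∧
        w.d x y' ≤ u.length + 1 ∧ ∀ a ∈ w.W x y', dG F γ a.1.1 ≤ u.length + 1 := by
      intro s t
      refine ⟨lmp (adj F) (z.1, s) t * y, by rw [h2]; exact smul_cls _ _, ?_, ?_⟩
      · have := I.pre.d_tri x y (lmp (adj F) (z.1, s) t * y)
        have := d_lmp I.gp (z.1, s) t y
        omega
      · intro a ha
        rcases W_or w.toPreWS x y _ a ha with h | h
        · exact (h4 a h).trans (Nat.le_succ _)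
        · rw [Finset.mem_singleton.1 (W_lmp_sub I.gp _ _ _ h)]
          exact h1.trans (Nat.le_succ _)
    obtain ⟨s, b⟩ := l
    have hm : FreeGroup.mk ((s, b) :: u) =
        (if b then FreeGroup.of s else (FreeGroup.of s)⁻¹) * FreeGroup.mk u := by
      cases b <;> rfl
    rw [hm, map_mul, Equiv.Perm.mul_apply, ← hz, List.length_cons]
    rcases s with s | s <;> cases b
    · simp only [Bool.false_eq_true, if_false, am_inl']
      exact ⟨mv _ (nr_of' s), keep⟩
    · simp only [if_true, am_inl]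
      exact ⟨mv _ (nr_of s), keep⟩
    · simp only [Bool.false_eq_true, if_false, am_inr']
      refine ⟨by omega, ?_⟩
      have : (lampN F (z.1, s) 1)⁻¹ = lampN F (z.1, s) (-1) := by
        unfold lampN; rw [lmp_neg I.gp, map_inv]
      rw [this]; exact lp s (-1)
    · simp only [if_true, am_inr]
      exact ⟨by omega, lp s 1⟩

variable {hc : c ∈ F}

lemma mem_base (I : PInst w) (x : PP F) :
    x ∈ w.cell (pcl F c hc 1 1) ↔ x ∈ Par (adj F) (ZMod P.h) (EP F c 1) := by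
  rw [I.cell_eq]; simp [pcl, pc]

lemma ac_base (I : PInst w) (b : PP F) (hb : b ∈ Par (adj F) (ZMod P.h) (EP F c 1)) :
    w.ac (pcl F c hc 1 1) b = pcl F c hc 1 1 := by
  rw [I.ac_eq]
  apply Subtype.ext
  have : pc (adj F) (EP F c 1) (1 * b) = pc (adj F) (EP F c 1) (1 : PP F) := by
    ext x
    simp only [pc, Set.mem_ofPred_eq, one_mul, inv_one, mul_one]
    exact Subgroup.mul_mem_cancel_right _ (inv_mem hb)
  simp only [pcl, this]

lemma π_self (I : PInst w) (Q : PC F) (x : PP F) (hx : x ∈ w.cell Q) : w.π Q x = x :=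
  I.pre.gate_uniq _ x _ _ (w.π_gate Q x) (gate_self _ _ x hx)

lemma word (I : PInst w) (x : PP F) : ∃ l, cls F c x = cls F c (prodL F l) ∧
    l.length = (w.WB (pcl F c hc 1 1) x).card ∧
    ∀ e ∈ l, ∃ a ∈ w.WB (pcl F c hc 1 1) x, a.1 = e.1 := by
  obtain ⟨l, e1, e2, e3⟩ := spell I.gp I.pre (w.π (pcl F c hc 1 1) x) _ x rfl
  refine ⟨l, ?_, ?_, ?_⟩
  · have := cls_B (c := c) (prodL F l) _ ((mem_base I _).1 (w.π_gate (pcl F c hc 1 1) x).1)
    rw [this]; exact congrArg _ e1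
  · rw [e2, WS.WB, W_comm]; rfl
  · rw [WS.WB, W_comm]; exact e3

lemma mw_min (I : PInst w) (z : NN F ⧸ As F c) (l : List (Lm F × ZMod P.h)) (h : MW F c z l) :
    w.Min (pcl F c hc 1 1) (prodL F l) ∧
    (w.WB (pcl F c hc 1 1) (prodL F l)).card = l.length ∧
    ∀ l' e, l = l' ++ [e] → ∃ a ∈ w.Bot (pcl F c hc 1 1) (prodL F l), a.1 = e.1 := by
  set B := pcl F c hc 1 1
  have h1 : (1 : PP F) ∈ w.cell B := (mem_base I _).2 (one_mem _)
  have lo : ∀ k ∈ KP F, l.length ≤ (w.WB B (prodL F l * k)).card := by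
    intro k hk
    obtain ⟨l', e1, e2, -⟩ := word (hc := hc) I (prodL F l * k)
    rw [← e2]
    exact h.2 l' (h.1.trans ((cls_K _ k hk).trans e1))
  have hg := (w.π_gate B (prodL F l)).2 1 h1
  have hd : w.d 1 (prodL F l) ≤ l.length := by simpa [prodL] using d_prod I.gp I.pre l 1
  have hW : (w.WB B (prodL F l)).card = w.d (prodL F l) (w.π B (prodL F l)) := by
    rw [WS.WB, W_comm]; rfl
  have hl := lo 1 (one_mem _)
  rw [mul_one] at hl
  rw [I.pre.d_comm] at hd
  refine ⟨fun k hk => ?_, by omega, ?_⟩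
  · have := lo k (I.KK_eq ▸ hk)
    omega
  · rintro l' e rfl
    have hπ : w.π B (prodL F (l' ++ [e])) = 1 := (I.pre.d_zero _ _).1 (by omega)
    have hx : prodL F (l' ++ [e]) = prodL F l' * (lmp (adj F) e.1 e.2 * 1) := by simp [prodL]
    have d1 := d_lmp I.gp e.1 e.2 (1 : PP F)
    have d2 : w.d (lmp (adj F) e.1 e.2 * 1) (prodL F (l' ++ [e])) ≤ l'.length := by
      rw [hx]; exact d_prod I.gp I.pre l' _
    have d3 := I.pre.d_tri 1 (lmp (adj F) e.1 e.2 * 1) (prodL F (l' ++ [e]))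
    have d4 := I.pre.d_comm 1 (prodL F (l' ++ [e]))
    rw [List.length_append, List.length_singleton] at hl hd
    rw [hπ] at hW
    have he : e.2 ≠ 0 := by
      intro h0
      have : w.d 1 (lmp (adj F) e.1 e.2 * 1) = 0 := by
        rw [h0, lmp_zero I.gp]; simp [PreWS.d, W_self]
      omega
    have hs := I.gp.W_lmp e.1 e.2 (1 : PP F) he
    refine ⟨wall (adj F) e.1 1, Finset.mem_filter.2 ⟨?_, 1, h1, w.car_step _ _ _ hs⟩, rfl⟩
    rw [WS.WB, hπ, (I.pre.W_add 1 (lmp (adj F) e.1 e.2 * 1) _ (by omega)).1, hs]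
    simp

lemma bot_out (I : PInst w) (x : PP F) (a : Wall (adj F) (ZMod P.h))
    (ha : a ∈ w.Bot (pcl F c hc 1 1) x) : a.1 ∉ EP F c 1 := by
  intro hE
  obtain ⟨h1, b, hb, hb'⟩ := Finset.mem_filter.1 ha
  have hg := w.π_gate (pcl F c hc 1 1) x
  have hX : w.Cross a (w.cell (pcl F c hc 1 1)) := by
    rw [I.cell_eq] at hb ⊢
    exact (I.gp.cross _ _ a).2 ⟨hE, b, hb, wall_of_car I.gp a b hb'⟩
  have := (I.pre.gate_W _ x _ _ _ hg (gate_self _ _ _ hg.1) a).2 ⟨by rwa [W_comm], hX⟩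
  simp [W_self] at this

lemma bot_adj (I : PInst w) (B : PC F) (x : PP F) (a : Wall (adj F) (ZMod P.h))
    (ha : a ∈ w.Bot B x) (a' : Wall (adj F) (ZMod P.h)) (ha' : a' ∈ w.Bot B x) :
    a = a' ∨ adj F a.1 a'.1 := by
  by_cases h : a = a'
  · exact Or.inl h
  · exact Or.inr (I.gp.comm _ x a a' (Finset.mem_filter.1 ha).1 (Finset.mem_filter.1 ha').1
      (I.out.bot_car B x a ha) (I.out.bot_car B x a' ha') h)

lemma good_base (I : PInst w) (x : PP F) (hx : w.Good (pcl F c hc 1 1) x)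
    (e : cls F c x = cls F c 1) : w.WB (pcl F c hc 1 1) x = ∅ := by
  set B := pcl F c hc 1 1
  obtain ⟨k, hk, b, hb, e⟩ := (cls_eq _ _).1 e.symm
  have hb' : b ∈ w.cell B := (mem_base I _).2 hb
  have hk' : b⁻¹ * k * b ∈ w.KK := by
    rw [I.KK_eq]; simpa using (KP_normal F).conj_mem k hk b⁻¹
  have ex : x = b * (b⁻¹ * k * b) := by rw [e]; group
  have r0 : ∀ Q, w.run Q (w.π B b) b = 0 := by
    intro Q; rw [π_self I B b hb']; simp [WS.run, PreWS.d, W_self]
  have gb : w.Good B b := fun Q κ _ => by rw [r0]; omega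
  rcases I.out.cons B b _ hk' gb (ex ▸ hx) with h | ⟨Q, α, -, h, -⟩
  · have := w.cell_ac B b (b⁻¹ * k * b) hb'
    rw [w.K_fix B _ h, ← ex] at this
    rw [WS.WB, π_self I B x this, W_self]
  · have h1 := w.θ_pos Q
    have h2 := w.big Q
    unfold WS.Heavy at h
    rw [r0] at h
    omega

lemma lab_adj (G1 : Gam1 F) (I : PInst w) (x x' : PP F) (a a' : Wall (adj F) (ZMod P.h))
    (ha : a ∈ w.Bot (pcl F c hc 1 1) x) (ha' : a' ∈ w.Bot (pcl F c hc 1 1) x')
    (hx : w.Good (pcl F c hc 1 1) x) (hx' : w.Good (pcl F c hc 1 1) x')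
    (e : cls F c x = cls F c x') : a.1 = a'.1 ∨ adj F a.1 a'.1 := by
  set B := pcl F c hc 1 1
  have fin : ∀ (y : PP F) (b b' : Wall (adj F) (ZMod P.h)), b ∈ w.Bot B y → b' ∈ w.Bot B y →
      b.1 = a.1 → b'.1 = a'.1 → a.1 = a'.1 ∨ adj F a.1 a'.1 := by
    intro y b b' hb hb' e1 e2
    rcases bot_adj I B y b hb b' hb' with h | h
    · exact Or.inl (by rw [← e1, ← e2, h])
    · exact Or.inr (by rwa [← e1, ← e2])
  obtain ⟨k, hk, b, hb, e⟩ := (cls_eq _ _).1 e
  have eb : w.ac B b⁻¹ = B := ac_base I _ (inv_mem hb)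
  have ex : x' * b⁻¹ = x * k := by rw [e]; group
  have g2 : w.Good B (x * k) := by
    have := I.out.good_ac B x' b⁻¹ hx'
    rwa [eb, ex] at this
  have b2 : w.aw a' b⁻¹ ∈ w.Bot B (x * k) := by
    have := (I.out.Bot_ac B x' b⁻¹ a').2 ha'
    rwa [eb, ex] at this
  rcases I.out.cons B x k (I.KK_eq ▸ hk) hx g2 with h | ⟨Q, α, hα, h1, h2⟩
  · have := (I.out.Bot_ac B x k a).2 ha
    rw [w.K_fix B k h] at this
    exact fin _ _ _ this b2 (aw_fst I.gp _ _) (aw_fst I.gp _ _)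
  · have b3 := (I.out.Bot_ac B (x * k) α _).2 b2
    rw [w.K_fix B α hα] at b3
    have l3 : (w.aw (w.aw a' b⁻¹) α).1 = a'.1 := by rw [aw_fst I.gp, aw_fst I.gp]
    by_cases c1 : w.Cross a (w.cell Q)
    · by_cases c3 : w.Cross (w.aw (w.aw a' b⁻¹) α) (w.cell Q)
      · obtain ⟨hQ, δ, q, -, e2⟩ := Q.2
        rw [I.cell_eq, e2, I.gp.cross] at c1 c3
        rw [l3] at c3
        by_cases h : a.1 = a'.1
        · exact Or.inl h
        · exact Or.inr (G1.clq _ hQ δ _ c1.1 _ c3.1 h)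
      · exact fin _ _ _ ha (I.out.bot_keep B Q _ _ _ h2 h1 b3 c3) rfl l3
    · exact fin _ _ _ (I.out.bot_keep B Q _ _ _ h1 h2 ha c1) b3 rfl l3

end Br

open Br in
theorem pBr (h1 : StGam1) (h2 : StGam2) (_ : StNum) : StBr := by
  intro P F hF c hc w I
  have G1 := h1 P F hF
  have G2 := h2 P F hF c hc
  have surj : Function.Surjective (cls F c) := by
    intro z
    obtain ⟨n, rfl⟩ := QuotientGroup.mk_surjective z
    obtain ⟨x, rfl⟩ := QuotientGroup.mk'_surjective (KP F) n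
    exact ⟨x, rfl⟩
  refine ⟨surj, cls_eq, ac_base I, ?_, word I, ?_, mw_min I, bot_out I, bot_adj I _,
    good_base I, ?_⟩
  · rintro t γ x z ⟨f, hf, rfl⟩
    obtain ⟨u, rfl, hu⟩ := ex_list f
    obtain ⟨e1, y, e2, e3, e4⟩ := move_list (c := c) G1 I γ x u
    have hl : u.length ≤ t := hu ▸ hf
    exact ⟨e1.trans hl, y, e2, e3.trans hl, fun a ha => (e4 a ha).trans hl⟩
  · intro z
    have ex : ∃ n, ∃ l : List (Lm F × ZMod P.h), z = cls F c (prodL F l) ∧ l.length = n := by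
      obtain ⟨x, rfl⟩ := surj z
      obtain ⟨l, e, -⟩ := word (hc := hc) I x
      exact ⟨_, l, e, rfl⟩
    obtain ⟨l, e1, e2⟩ := Nat.find_spec ex
    exact ⟨l, e1, fun l' e => e2 ▸ Nat.find_min' ex ⟨l', e, rfl⟩⟩
  · intro γ x y y' a ha hx hL hy'
    rcases hL with ⟨e, -⟩ | ⟨l, e, hM, hy⟩
    · have := (Finset.mem_filter.1 ha).1
      rw [good_base I x hx e] at this
      simp at this
    · obtain ⟨m1, -, m3⟩ := mw_min (hc := hc) I _ _ hM
      obtain ⟨a', ha', e'⟩ := m3 l e rfl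
      have := lab_adj G1 I x _ a a' ha ha' hx (I.out.min_good _ _ m1) hM.1
      have h := G2.lemL a.1 a'.1 y' y this (bot_out I x a ha) hy' (e' ▸ hy)
      rwa [← G1.pos_d c hc, G1.dG_symm, G1.pos_d c hc]

end Pool.Agent.P.MP_9167e9_an
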